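import Mathlib

/-!
# A binary unsaturated tree structure that is not designable

The secondary structure `( . ( ( . . ) ( . ( ( . ) ( . . ) ) ) ) )` on `21` positions (seven arcs,
seven unpaired positions) has a binary unsaturated tree and is not the unique maximum arc set of
any sequence over `{A, C, G, U}`.  So the answer to the question (is every binary unsaturated
tree structure designable?) is negative.  Found by an exhaustive computer search (there is no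
example with at most `20` positions); the proof is a decision tree: for every sequence `S` for which
the structure is an arc set, another arc set with at least seven arcs is exhibited, one of `52`.
-/

namespace Pool.Agent.Results.MP_4bbd08_co.UndesignableBinary

/-- The four bases. -/
inductive Base
  | A | C | G | U
  deriving DecidableEq

/-- The base pairs are `G-C` and `A-U`. -/
def Pairs (x y : Base) : Prop :=
  (x = .G ∧ y = .C) ∨ (x = .C ∧ y = .G) ∨ (x = .A ∧ y = .U) ∨ (x = .U ∧ y = .A)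

/-- `R` is a secondary structure on the positions `1, …, n`: its elements are arcs `(i, j)` with
`1 ≤ i < j ≤ n`, no two arcs share an endpoint, and no two arcs cross. -/
structure IsStructure (n : ℕ) (R : Finset (ℕ × ℕ)) : Prop where
  range : ∀ a ∈ R, 1 ≤ a.1 ∧ a.1 < a.2 ∧ a.2 ≤ n
  disjoint : ∀ a ∈ R, ∀ b ∈ R, a ≠ b → a.1 ≠ b.1 ∧ a.1 ≠ b.2 ∧ a.2 ≠ b.1 ∧ a.2 ≠ b.2
  noncrossing : ∀ a ∈ R, ∀ b ∈ R, ¬ (a.1 < b.1 ∧ b.1 < a.2 ∧ a.2 < b.2)

/-- `R` is an arc set for the sequence `S(1), …, S(n)`. -/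
def IsArcSet (n : ℕ) (S : ℕ → Base) (R : Finset (ℕ × ℕ)) : Prop :=
  IsStructure n R ∧ ∀ a ∈ R, Pairs (S a.1) (S a.2)

/-- `R` is the unique arc set of maximum size of some sequence. -/
def Designable (n : ℕ) (R : Finset (ℕ × ℕ)) : Prop :=
  ∃ S : ℕ → Base, IsArcSet n S R ∧
    ∀ R' : Finset (ℕ × ℕ), IsArcSet n S R' → R' ≠ R → R'.card < R.card

/-- The position `p` is on no arc of `R`. -/
def Unpaired (n : ℕ) (R : Finset (ℕ × ℕ)) (p : ℕ) : Prop :=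
  1 ≤ p ∧ p ≤ n ∧ ∀ a ∈ R, a.1 ≠ p ∧ a.2 ≠ p

/-- The arc `b` is a child of the arc `a` in the tree of `R`: `a` strictly encloses `b` and no arc
of `R` lies strictly between them. -/
def ArcChild (R : Finset (ℕ × ℕ)) (a b : ℕ × ℕ) : Prop :=
  b ∈ R ∧ (a.1 < b.1 ∧ b.2 < a.2) ∧
    ∀ c ∈ R, ¬ ((a.1 < c.1 ∧ c.2 < a.2) ∧ (c.1 < b.1 ∧ b.2 < c.2))

/-- The unpaired position `p` is a child of the arc `a` in the tree of `R`. -/
def DotChild (n : ℕ) (R : Finset (ℕ × ℕ)) (a : ℕ × ℕ) (p : ℕ) : Prop :=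
  Unpaired n R p ∧ (a.1 < p ∧ p < a.2) ∧
    ∀ c ∈ R, ¬ ((a.1 < c.1 ∧ c.2 < a.2) ∧ (c.1 < p ∧ p < c.2))

/-- The tree of `R` is binary: every vertex has at most two children (unpaired positions have no
children). -/
def IsBinary (n : ℕ) (R : Finset (ℕ × ℕ)) : Prop :=
  ∀ a ∈ R, {b | ArcChild R a b}.ncard + {p | DotChild n R a p}.ncard ≤ 2

/-! ### The structure and the other arc sets -/

/-- The structure, as a list. -/
def R0 : List (ℕ × ℕ) :=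
  [(1, 21), (3, 20), (4, 7), (8, 19), (10, 18), (11, 13), (14, 17)]

/-- The structures that compete with `R0`. -/
def alts : List (List (ℕ × ℕ)) :=
  [[(2, 21), (3, 20), (4, 7), (8, 19), (10, 18), (11, 13), (14, 17)],
   [(1, 21), (3, 20), (4, 19), (7, 8), (10, 18), (11, 13), (14, 17)],
   [(1, 21), (3, 20), (4, 7), (8, 19), (9, 18), (11, 13), (14, 17)],
   [(1, 21), (3, 20), (5, 7), (8, 19), (10, 18), (11, 13), (14, 17)],
   [(1, 21), (3, 20), (5, 19), (7, 9), (10, 18), (11, 13), (14, 17)],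
   [(1, 21), (3, 20), (6, 7), (8, 19), (10, 18), (11, 13), (14, 17)],
   [(1, 21), (3, 20), (4, 7), (5, 6), (8, 19), (10, 18), (11, 13), (14, 17)],
   [(1, 21), (2, 5), (6, 8), (9, 20), (10, 18), (11, 13), (14, 17)],
   [(1, 21), (3, 20), (4, 6), (8, 19), (10, 18), (11, 13), (14, 17)],
   [(1, 21), (3, 20), (4, 5), (8, 19), (10, 18), (11, 13), (14, 17)],
   [(1, 21), (3, 20), (4, 7), (8, 10), (11, 13), (14, 17), (18, 19)],
   [(1, 21), (3, 20), (4, 7), (8, 19), (9, 10), (11, 13), (14, 17)],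
   [(1, 21), (3, 20), (4, 7), (9, 19), (10, 18), (11, 13), (14, 17)],
   [(1, 21), (3, 20), (4, 7), (8, 9), (10, 18), (11, 13), (14, 17)],
   [(1, 21), (2, 19), (3, 9), (4, 7), (10, 18), (11, 13), (14, 17)],
   [(1, 21), (2, 8), (4, 7), (9, 20), (10, 18), (11, 13), (14, 17)],
   [(1, 21), (3, 20), (4, 9), (5, 8), (10, 18), (11, 13), (14, 17)],
   [(1, 21), (3, 20), (4, 7), (8, 19), (10, 18), (12, 13), (14, 17)],
   [(1, 21), (3, 20), (5, 19), (6, 18), (8, 12), (9, 11), (14, 17)],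
   [(1, 21), (3, 20), (4, 7), (8, 19), (9, 11), (12, 18), (14, 17)],
   [(1, 21), (3, 20), (4, 7), (8, 19), (10, 18), (11, 12), (14, 17)],
   [(1, 21), (3, 20), (4, 7), (8, 19), (10, 11), (13, 18), (14, 17)],
   [(1, 21), (3, 20), (5, 19), (6, 18), (8, 13), (9, 12), (14, 17)],
   [(1, 21), (3, 20), (4, 7), (8, 19), (10, 18), (11, 13), (15, 17)],
   [(1, 21), (3, 20), (4, 7), (8, 19), (10, 18), (11, 15), (12, 14)],
   [(1, 21), (3, 20), (4, 7), (8, 19), (9, 14), (11, 13), (15, 18)],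
   [(1, 21), (3, 20), (4, 7), (8, 19), (10, 18), (11, 13), (14, 15)],
   [(1, 21), (3, 20), (4, 7), (8, 19), (10, 14), (11, 13), (17, 18)],
   [(1, 21), (3, 20), (4, 7), (8, 19), (10, 18), (11, 17), (13, 14)],
   [(1, 21), (3, 20), (4, 7), (8, 19), (9, 17), (10, 15), (11, 13)],
   [(1, 21), (3, 20), (4, 7), (8, 19), (10, 18), (12, 17), (13, 15)],
   [(1, 21), (3, 20), (4, 7), (8, 19), (9, 13), (10, 12), (14, 17)],
   [(1, 21), (3, 20), (5, 19), (6, 18), (8, 15), (9, 14), (11, 13)],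
   [(1, 21), (3, 20), (5, 19), (6, 18), (8, 17), (9, 15), (11, 13)],
   [(1, 21), (3, 8), (4, 7), (10, 18), (11, 13), (14, 17), (19, 20)],
   [(1, 21), (2, 14), (3, 13), (4, 7), (8, 12), (9, 11), (15, 20)],
   [(1, 21), (2, 15), (3, 13), (4, 7), (8, 12), (9, 11), (17, 20)],
   [(1, 21), (3, 20), (4, 7), (8, 19), (10, 18), (11, 13), (16, 17)],
   [(1, 21), (3, 20), (5, 17), (7, 16), (8, 15), (9, 14), (11, 13)],
   [(1, 21), (3, 20), (4, 7), (8, 19), (10, 18), (11, 13), (14, 17), (15, 16)],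
   [(1, 21), (3, 20), (4, 7), (8, 19), (10, 18), (11, 13), (14, 16)],
   [(1, 21), (2, 15), (3, 14), (4, 10), (5, 9), (11, 13), (17, 20)],
   [(1, 21), (2, 12), (3, 11), (4, 10), (5, 9), (13, 20), (14, 17)],
   [(1, 21), (2, 7), (3, 5), (8, 19), (10, 18), (11, 13), (14, 17)],
   [(1, 21), (2, 4), (5, 20), (8, 19), (10, 18), (11, 13), (14, 17)],
   [(1, 21), (2, 9), (3, 5), (6, 8), (10, 18), (11, 13), (14, 17)],
   [(1, 21), (2, 19), (3, 5), (6, 9), (10, 18), (11, 13), (14, 17)],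
   [(1, 21), (3, 4), (7, 20), (8, 19), (10, 18), (11, 13), (14, 17)],
   [(1, 21), (2, 20), (4, 7), (8, 19), (10, 18), (11, 13), (14, 17)],
   [(1, 21), (2, 3), (4, 7), (8, 19), (10, 18), (11, 13), (14, 17)],
   [(1, 3), (4, 7), (8, 19), (10, 18), (11, 13), (14, 17), (20, 21)],
   [(1, 2), (3, 20), (4, 7), (8, 19), (10, 18), (11, 13), (14, 17)]]

/-- Decision trees: `L k` refers to the competitor number `k`, `N i j` asks for the base at `i`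
(the base at `j` is the complementary one), `D i` asks for the base at `i`. The four subtrees
belong to `A, C, G, U`. -/
inductive DTree
  | L (k : ℕ)
  | N (i j : ℕ) (a c g u : DTree)
  | D (i : ℕ) (a c g u : DTree)

/-- The complementary base. -/
def comp : Base → Base
  | .A => .U
  | .C => .G
  | .G => .C
  | .U => .A

theorem pairs_iff (x y : Base) : Pairs x y ↔ y = comp x := by
  cases x <;> cases y <;> simp [Pairs, comp]

/-- Look up an assignment. -/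
def look : List (ℕ × Base) → ℕ → Option Base
  | [], _ => none
  | (j, x) :: l, i => if i = j then some x else look l i

theorem look_sound {S : ℕ → Base} : ∀ {asg : List (ℕ × Base)}, (∀ p ∈ asg, S p.1 = p.2) →
    ∀ {i : ℕ} {x : Base}, look asg i = some x → S i = x := by
  intro asg
  induction asg with
  | nil => intro _ i x h; simp [look] at h
  | cons p l ih =>
    intro hS i x h
    obtain ⟨j, y⟩ := p
    unfold look at h
    by_cases hij : i = j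
    · rw [if_pos hij] at h
      have h1 := hS (j, y) (by simp)
      rw [hij]
      simpa using h1.trans (Option.some.inj h)
    · rw [if_neg hij] at h
      exact ih (fun p hp => hS p (List.mem_cons_of_mem _ hp)) h

/-- The arc `a` is available: it belongs to `R0` or its ends have been assigned complementary
bases. -/
def avail (asg : List (ℕ × Base)) (a : ℕ × ℕ) : Bool :=
  R0.contains a ||
    match look asg a.1, look asg a.2 with
    | some x, some y => decide (y = comp x)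
    | _, _ => false

/-- The checker for decision trees. -/
def check : List (ℕ × Base) → DTree → Bool
  | asg, .L k =>
    match alts[k]? with
    | none => false
    | some l => l.all (avail asg)
  | asg, .N i j a c g u => R0.contains (i, j) &&
      (check ((i, .A) :: (j, .U) :: asg) a && check ((i, .C) :: (j, .G) :: asg) c &&
        check ((i, .G) :: (j, .C) :: asg) g && check ((i, .U) :: (j, .A) :: asg) u)
  | asg, .D i a c g u =>
      check ((i, .A) :: asg) a && check ((i, .C) :: asg) c &&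
        check ((i, .G) :: asg) g && check ((i, .U) :: asg) u

theorem avail_sound {S : ℕ → Base} (hR : ∀ a ∈ R0, S a.2 = comp (S a.1))
    {asg : List (ℕ × Base)} (hS : ∀ p ∈ asg, S p.1 = p.2) {a : ℕ × ℕ} (h : avail asg a = true) :
    S a.2 = comp (S a.1) := by
  unfold avail at h
  rw [Bool.or_eq_true] at h
  rcases h with h | h
  · exact hR a (by simpa using h)
  · cases h1 : look asg a.1 with
    | none => rw [h1] at h; simp at h
    | some x =>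
      cases h2 : look asg a.2 with
      | none => rw [h1, h2] at h; simp at h
      | some y =>
        rw [h1, h2] at h
        have h3 : y = comp x := by simpa using h
        rw [look_sound hS h1, look_sound hS h2, h3]

theorem check_sound {S : ℕ → Base} (hR : ∀ a ∈ R0, S a.2 = comp (S a.1)) :
    ∀ (t : DTree) (asg : List (ℕ × Base)), (∀ p ∈ asg, S p.1 = p.2) → check asg t = true →
      ∃ l ∈ alts, ∀ a ∈ l, S a.2 = comp (S a.1) := by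
  intro t
  induction t with
  | L k =>
    intro asg hS h
    unfold check at h
    cases hk : alts[k]? with
    | none => rw [hk] at h; simp at h
    | some l =>
      rw [hk] at h
      refine ⟨l, List.mem_of_getElem? hk, fun a ha => ?_⟩
      exact avail_sound hR hS (List.all_eq_true.1 h a ha)
  | N i j a c g u iha ihc ihg ihu =>
    intro asg hS h
    unfold check at h
    simp only [Bool.and_eq_true] at h
    obtain ⟨hij, ⟨⟨ha, hc⟩, hg⟩, hu⟩ := h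
    have hij' : S j = comp (S i) := hR (i, j) (by simpa using hij)
    have key : ∀ x : Base, S i = x → ∀ p ∈ ((i, x) :: (j, comp x) :: asg), S p.1 = p.2 := by
      intro x hx p hp
      rw [List.mem_cons, List.mem_cons] at hp
      rcases hp with rfl | rfl | hp
      · exact hx
      · show S j = comp x
        rw [hij', hx]
      · exact hS p hp
    cases hx : S i with
    | A => exact iha _ (key _ hx) ha
    | C => exact ihc _ (key _ hx) hc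
    | G => exact ihg _ (key _ hx) hg
    | U => exact ihu _ (key _ hx) hu
  | D i a c g u iha ihc ihg ihu =>
    intro asg hS h
    unfold check at h
    simp only [Bool.and_eq_true] at h
    obtain ⟨⟨⟨ha, hc⟩, hg⟩, hu⟩ := h
    have key : ∀ x : Base, S i = x → ∀ p ∈ ((i, x) :: asg), S p.1 = p.2 := by
      intro x hx p hp
      rw [List.mem_cons] at hp
      rcases hp with rfl | hp
      · exact hx
      · exact hS p hp
    cases hx : S i with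
    | A => exact iha _ (key _ hx) ha
    | C => exact ihc _ (key _ hx) hc
    | G => exact ihg _ (key _ hx) hg
    | U => exact ihu _ (key _ hx) hu

/-- Boolean test for secondary structures. -/
def okList (l : List (ℕ × ℕ)) : Bool :=
  l.all fun a => decide (1 ≤ a.1 ∧ a.1 < a.2 ∧ a.2 ≤ 21) &&
    l.all fun b => decide ((a = b ∨ (a.1 ≠ b.1 ∧ a.1 ≠ b.2 ∧ a.2 ≠ b.1 ∧ a.2 ≠ b.2)) ∧
      ¬ (a.1 < b.1 ∧ b.1 < a.2 ∧ a.2 < b.2))

theorem okList_sound {l : List (ℕ × ℕ)} (h : okList l = true) : IsStructure 21 l.toFinset := by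
  unfold okList at h
  rw [List.all_eq_true] at h
  have h1 : ∀ a ∈ l, (1 ≤ a.1 ∧ a.1 < a.2 ∧ a.2 ≤ 21) ∧
      ∀ b ∈ l, (a = b ∨ (a.1 ≠ b.1 ∧ a.1 ≠ b.2 ∧ a.2 ≠ b.1 ∧ a.2 ≠ b.2)) ∧
        ¬ (a.1 < b.1 ∧ b.1 < a.2 ∧ a.2 < b.2) := by
    intro a ha
    have h2 := h a ha
    rw [Bool.and_eq_true, List.all_eq_true] at h2
    refine ⟨of_decide_eq_true h2.1, fun b hb => of_decide_eq_true (h2.2 b hb)⟩
  refine ⟨fun a ha => (h1 a (List.mem_toFinset.1 ha)).1, fun a ha b hb hab => ?_,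
    fun a ha b hb => ?_⟩
  · rcases ((h1 a (List.mem_toFinset.1 ha)).2 b (List.mem_toFinset.1 hb)).1 with h2 | h2
    · exact absurd h2 hab
    · exact h2
  · exact ((h1 a (List.mem_toFinset.1 ha)).2 b (List.mem_toFinset.1 hb)).2

/-- The competitors are secondary structures with at least seven arcs, different from `R0`. -/
theorem alts_ok : (alts.all fun l => okList l && decide l.Nodup && decide (7 ≤ l.length) &&
    l.any fun a => !(R0.contains a)) = true := by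
  decide +kernel

open DTree in
/-- The decision tree. -/
def tree : DTree :=
(N 1 21 (D 2 (L 0) (N 3 20 (N 4 7 (N 8 19 (L 1) (D 9 (N 10 18 (L 2) (D 5 (L 3) (L 4) (D 6 (L 5) (L
6) (L 7) (L 8)) (L 9)) (L 10) (L 11)) (L 12) (L 13) (L 14)) (D 9 (L 15) (L 13) (L 12) (N 10 18 (L
11) (L 10) (D 5 (L 3) (L 16) (D 6 (L 5) (L 6) (N 11 13 (D 12 (L 17) (L 18) (L 19) (L 20)) (L 21) (D
12 (L 22) (L 20) (L 17) (N 14 17 (D 15 (L 23) (L 24) (L 25) (L 26)) (L 27) (L 28) (D 15 (L 26) (L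
29) (L 30) (L 23)))) (D 12 (L 20) (L 31) (N 14 17 (D 15 (L 23) (L 32) (L 25) (L 26)) (L 27) (D 15 (L
33) (L 26) (L 23) (L 30)) (L 28)) (L 17))) (L 8)) (L 9)) (L 2))) (L 34)) (D 5 (D 6 (N 8 19 (D 9 (L
12) (L 4) (N 10 18 (N 11 13 (D 12 (L 17) (L 22) (N 14 17 (L 28) (D 15 (L 25) (L 23) (L 26) (L 24))
(D 15 (L 30) (L 26) (L 23) (L 29)) (L 27)) (L 20)) (D 12 (L 19) (L 17) (L 20) (L 18)) (D 12 (N 14 17
(D 15 (L 23) (L 33) (L 30) (L 26)) (D 15 (L 25) (L 23) (L 26) (L 32)) (L 28) (L 27)) (L 20) (L 17)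
(L 31)) (L 21)) (L 11) (L 2) (L 10)) (L 13)) (L 1) (D 9 (L 15) (L 13) (L 12) (N 10 18 (L 11) (L 10)
(N 11 13 (D 12 (L 17) (N 14 17 (L 28) (L 27) (D 15 (L 35) (L 26) (L 23) (L 24)) (D 15 (L 26) (L 29)
(L 36) (L 23))) (L 19) (L 20)) (L 21) (N 14 17 (D 15 (L 23) (D 16 (L 37) (L 38) (L 39) (L 40)) (L
25) (L 26)) (L 27) (L 28) (D 15 (L 26) (L 29) (L 41) (L 23))) (D 12 (L 20) (L 31) (L 42) (L 17))) (L
2))) (L 34)) (L 5) (L 8) (L 6)) (L 3) (L 9) (L 43)) (D 5 (L 44) (L 9) (L 3) (D 6 (L 6) (L 8) (L 5)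
(N 8 19 (D 9 (L 12) (L 16) (L 45) (L 13)) (D 9 (L 46) (L 12) (L 13) (L 14)) (L 1) (L 34)))) (L 47))
(L 48) (L 49) (L 50)) (N 3 20 (N 4 7 (N 8 19 (L 1) (D 9 (L 15) (L 12) (L 13) (N 10 18 (L 11) (D 5 (L
3) (D 6 (L 5) (N 11 13 (D 12 (L 17) (L 19) (L 18) (L 20)) (D 12 (L 22) (L 17) (L 20) (N 14 17 (D 15
(L 23) (L 25) (L 24) (L 26)) (L 28) (L 27) (D 15 (L 26) (L 30) (L 29) (L 23)))) (L 21) (D 12 (L 20)
(N 14 17 (D 15 (L 23) (L 25) (L 32) (L 26)) (D 15 (L 33) (L 23) (L 26) (L 30)) (L 27) (L 28)) (L 31)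
(L 17))) (L 6) (L 8)) (L 16) (L 9)) (L 10) (L 2))) (D 9 (N 10 18 (L 2) (L 10) (D 5 (L 3) (D 6 (L 5)
(L 7) (L 6) (L 8)) (L 4) (L 9)) (L 11)) (L 13) (L 12) (L 14)) (L 34)) (D 5 (L 44) (L 3) (L 9) (D 6
(L 6) (L 5) (L 8) (N 8 19 (D 9 (L 12) (L 45) (L 16) (L 13)) (L 1) (D 9 (L 46) (L 13) (L 12) (L 14))
(L 34)))) (D 5 (D 6 (N 8 19 (D 9 (L 12) (N 10 18 (N 11 13 (D 12 (L 17) (N 14 17 (L 28) (D 15 (L 30)
(L 23) (L 26) (L 29)) (D 15 (L 25) (L 26) (L 23) (L 24)) (L 27)) (L 22) (L 20)) (D 12 (N 14 17 (D 15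
(L 23) (L 30) (L 33) (L 26)) (L 28) (D 15 (L 25) (L 26) (L 23) (L 32)) (L 27)) (L 17) (L 20) (L 31))
(D 12 (L 19) (L 20) (L 17) (L 18)) (L 21)) (L 2) (L 11) (L 10)) (L 4) (L 13)) (D 9 (L 15) (L 12) (L
13) (N 10 18 (L 11) (N 11 13 (D 12 (L 17) (L 19) (N 14 17 (L 28) (D 15 (L 35) (L 23) (L 26) (L 24))
(L 27) (D 15 (L 26) (L 36) (L 29) (L 23))) (L 20)) (N 14 17 (D 15 (L 23) (L 25) (D 16 (L 37) (L 39)
(L 38) (L 40)) (L 26)) (L 28) (L 27) (D 15 (L 26) (L 41) (L 29) (L 23))) (L 21) (D 12 (L 20) (L 42)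
(L 31) (L 17))) (L 10) (L 2))) (L 1) (L 34)) (L 8) (L 5) (L 6)) (L 9) (L 3) (L 43)) (L 47)) (L 49)
(L 48) (L 50)) (L 51)) (D 2 (N 3 20 (L 48) (N 4 7 (D 5 (L 3) (D 6 (L 5) (N 8 19 (L 1) (D 9 (L 4) (L
12) (L 13) (N 10 18 (L 11) (N 11 13 (D 12 (L 17) (L 19) (L 18) (L 20)) (D 12 (L 22) (L 17) (L 20) (N
14 17 (D 15 (L 23) (L 25) (L 24) (L 26)) (L 28) (L 27) (D 15 (L 26) (L 30) (L 29) (L 23)))) (L 21)
(D 12 (L 20) (N 14 17 (D 15 (L 23) (L 25) (L 32) (L 26)) (D 15 (L 33) (L 23) (L 26) (L 30)) (L 27)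
(L 28)) (L 31) (L 17))) (L 10) (L 2))) (L 34) (D 9 (L 13) (L 15) (N 10 18 (L 10) (L 11) (L 2) (N 11
13 (L 21) (D 12 (N 14 17 (L 27) (L 28) (D 15 (L 29) (L 26) (L 23) (L 36)) (D 15 (L 26) (L 35) (L 24)
(L 23))) (L 17) (L 20) (L 19)) (D 12 (L 31) (L 20) (L 17) (L 42)) (N 14 17 (L 27) (D 15 (D 16 (L 38)
(L 37) (L 40) (L 39)) (L 23) (L 26) (L 25)) (D 15 (L 29) (L 26) (L 23) (L 41)) (L 28)))) (L 12))) (L
6) (L 8)) (L 43) (L 9)) (N 8 19 (D 9 (L 12) (N 10 18 (D 5 (L 4) (L 3) (L 9) (D 6 (L 6) (L 5) (L 8)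
(L 7))) (L 2) (L 11) (L 10)) (L 14) (L 13)) (L 1) (L 34) (D 9 (L 13) (L 15) (N 10 18 (L 10) (L 11)
(L 2) (D 5 (L 16) (L 3) (L 9) (D 6 (L 6) (L 5) (L 8) (N 11 13 (L 21) (D 12 (L 18) (L 17) (L 20) (L
19)) (D 12 (L 31) (L 20) (L 17) (N 14 17 (L 27) (D 15 (L 32) (L 23) (L 26) (L 25)) (L 28) (D 15 (L
26) (L 33) (L 30) (L 23)))) (D 12 (L 20) (L 22) (N 14 17 (L 27) (D 15 (L 24) (L 23) (L 26) (L 25))
(D 15 (L 29) (L 26) (L 23) (L 30)) (L 28)) (L 17)))))) (L 12))) (L 47) (D 5 (L 9) (L 44) (D 6 (L 8)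
(L 6) (N 8 19 (D 9 (L 12) (L 46) (L 14) (L 13)) (D 9 (L 16) (L 12) (L 13) (L 45)) (L 34) (L 1)) (L
5)) (L 3))) (L 50) (L 49)) (L 0) (L 51) (N 3 20 (L 49) (N 4 7 (D 5 (L 3) (L 44) (D 6 (L 5) (L 6) (N
8 19 (L 1) (D 9 (L 45) (L 12) (L 13) (L 16)) (L 34) (D 9 (L 13) (L 46) (L 14) (L 12))) (L 8)) (L 9))
(N 8 19 (D 9 (L 12) (L 15) (N 10 18 (D 5 (D 6 (N 11 13 (D 12 (L 17) (L 22) (N 14 17 (L 28) (D 15 (L
25) (L 23) (L 26) (L 24)) (D 15 (L 30) (L 26) (L 23) (L 29)) (L 27)) (L 20)) (D 12 (L 19) (L 17) (L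
20) (L 18)) (D 12 (N 14 17 (D 15 (L 23) (L 33) (L 30) (L 26)) (D 15 (L 25) (L 23) (L 26) (L 32)) (L
28) (L 27)) (L 20) (L 17) (L 31)) (L 21)) (L 5) (L 8) (L 6)) (L 3) (L 9) (L 16)) (L 11) (L 2) (L
10)) (L 13)) (L 1) (L 34) (D 9 (L 13) (N 10 18 (L 10) (L 2) (L 11) (D 5 (D 6 (L 7) (L 5) (L 8) (L
6)) (L 3) (L 9) (L 4))) (L 14) (L 12))) (L 47) (D 5 (L 9) (D 6 (L 8) (N 8 19 (D 9 (L 12) (L 15) (N
10 18 (N 11 13 (N 14 17 (L 28) (D 15 (L 25) (L 23) (L 26) (D 16 (L 39) (L 37) (L 40) (L 38))) (D 15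
(L 41) (L 26) (L 23) (L 29)) (L 27)) (D 12 (L 19) (L 17) (L 20) (N 14 17 (D 15 (L 23) (L 35) (L 24)
(L 26)) (L 28) (D 15 (L 36) (L 26) (L 23) (L 29)) (L 27))) (D 12 (L 42) (L 20) (L 17) (L 31)) (L
21)) (L 11) (L 2) (L 10)) (L 13)) (D 9 (N 10 18 (L 2) (N 11 13 (D 12 (L 17) (N 14 17 (L 28) (D 15 (L
30) (L 23) (L 26) (L 33)) (L 27) (D 15 (L 26) (L 25) (L 32) (L 23))) (L 31) (L 20)) (D 12 (N 14 17
(D 15 (L 23) (L 30) (L 29) (L 26)) (L 28) (L 27) (D 15 (L 26) (L 25) (L 24) (L 23))) (L 17) (L 20)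
(L 22)) (L 21) (D 12 (L 20) (L 19) (L 18) (L 17))) (L 10) (L 11)) (L 12) (L 13) (L 4)) (L 34) (L 1))
(L 6) (L 5)) (L 43) (L 3))) (L 50) (L 48))) (D 2 (N 3 20 (L 48) (L 50) (N 4 7 (D 5 (L 3) (L 43) (D 6
(L 5) (L 6) (N 8 19 (L 1) (L 34) (D 9 (L 4) (L 13) (L 12) (N 10 18 (L 11) (L 10) (N 11 13 (D 12 (L
17) (L 18) (L 19) (L 20)) (L 21) (D 12 (L 22) (L 20) (L 17) (N 14 17 (D 15 (L 23) (L 24) (L 25) (L
26)) (L 27) (L 28) (D 15 (L 26) (L 29) (L 30) (L 23)))) (D 12 (L 20) (L 31) (N 14 17 (D 15 (L 23) (L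
32) (L 25) (L 26)) (L 27) (D 15 (L 33) (L 26) (L 23) (L 30)) (L 28)) (L 17))) (L 2))) (D 9 (L 13) (N
10 18 (L 10) (L 2) (L 11) (N 11 13 (L 21) (D 12 (L 31) (L 17) (L 20) (L 42)) (D 12 (N 14 17 (L 27)
(D 15 (L 29) (L 23) (L 26) (L 36)) (L 28) (D 15 (L 26) (L 24) (L 35) (L 23))) (L 20) (L 17) (L 19))
(N 14 17 (L 27) (D 15 (L 29) (L 23) (L 26) (L 41)) (D 15 (D 16 (L 38) (L 40) (L 37) (L 39)) (L 26)
(L 23) (L 25)) (L 28)))) (L 15) (L 12))) (L 8)) (L 9)) (L 47) (N 8 19 (D 9 (L 12) (L 14) (N 10 18 (D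
5 (L 4) (L 9) (L 3) (D 6 (L 6) (L 8) (L 5) (L 7))) (L 11) (L 2) (L 10)) (L 13)) (L 34) (L 1) (D 9 (L
13) (N 10 18 (L 10) (L 2) (L 11) (D 5 (L 16) (L 9) (L 3) (D 6 (L 6) (L 8) (L 5) (N 11 13 (L 21) (D
12 (L 31) (L 17) (L 20) (N 14 17 (L 27) (L 28) (D 15 (L 32) (L 26) (L 23) (L 25)) (D 15 (L 26) (L
30) (L 33) (L 23)))) (D 12 (L 18) (L 20) (L 17) (L 19)) (D 12 (L 20) (N 14 17 (L 27) (D 15 (L 29) (L
23) (L 26) (L 30)) (D 15 (L 24) (L 26) (L 23) (L 25)) (L 28)) (L 22) (L 17)))))) (L 15) (L 12))) (D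
5 (L 9) (D 6 (L 8) (N 8 19 (D 9 (L 12) (L 14) (L 46) (L 13)) (L 34) (D 9 (L 16) (L 13) (L 12) (L
45)) (L 1)) (L 6) (L 5)) (L 44) (L 3))) (L 49)) (L 51) (L 0) (N 3 20 (L 49) (L 50) (N 4 7 (D 5 (L 3)
(D 6 (L 5) (N 8 19 (L 1) (L 34) (D 9 (L 45) (L 13) (L 12) (L 16)) (D 9 (L 13) (L 14) (L 46) (L 12)))
(L 6) (L 8)) (L 44) (L 9)) (L 47) (N 8 19 (D 9 (L 12) (N 10 18 (D 5 (D 6 (N 11 13 (D 12 (L 17) (N 14
17 (L 28) (D 15 (L 30) (L 23) (L 26) (L 29)) (D 15 (L 25) (L 26) (L 23) (L 24)) (L 27)) (L 22) (L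
20)) (D 12 (N 14 17 (D 15 (L 23) (L 30) (L 33) (L 26)) (L 28) (D 15 (L 25) (L 26) (L 23) (L 32)) (L
27)) (L 17) (L 20) (L 31)) (D 12 (L 19) (L 20) (L 17) (L 18)) (L 21)) (L 8) (L 5) (L 6)) (L 9) (L 3)
(L 16)) (L 2) (L 11) (L 10)) (L 15) (L 13)) (L 34) (L 1) (D 9 (L 13) (L 14) (N 10 18 (L 10) (L 11)
(L 2) (D 5 (D 6 (L 7) (L 8) (L 5) (L 6)) (L 9) (L 3) (L 4))) (L 12))) (D 5 (L 9) (L 43) (D 6 (L 8)
(L 6) (N 8 19 (D 9 (L 12) (N 10 18 (N 11 13 (N 14 17 (L 28) (D 15 (L 41) (L 23) (L 26) (L 29)) (D 15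
(L 25) (L 26) (L 23) (D 16 (L 39) (L 40) (L 37) (L 38))) (L 27)) (D 12 (L 42) (L 17) (L 20) (L 31))
(D 12 (L 19) (L 20) (L 17) (N 14 17 (D 15 (L 23) (L 24) (L 35) (L 26)) (D 15 (L 36) (L 23) (L 26) (L
29)) (L 28) (L 27))) (L 21)) (L 2) (L 11) (L 10)) (L 15) (L 13)) (L 34) (D 9 (N 10 18 (L 2) (L 10)
(N 11 13 (D 12 (L 17) (L 31) (N 14 17 (L 28) (L 27) (D 15 (L 30) (L 26) (L 23) (L 33)) (D 15 (L 26)
(L 32) (L 25) (L 23))) (L 20)) (L 21) (D 12 (N 14 17 (D 15 (L 23) (L 29) (L 30) (L 26)) (L 27) (L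
28) (D 15 (L 26) (L 24) (L 25) (L 23))) (L 20) (L 17) (L 22)) (D 12 (L 20) (L 18) (L 19) (L 17))) (L
11)) (L 13) (L 12) (L 4)) (L 1)) (L 5)) (L 3))) (L 48))) (D 2 (L 51) (N 3 20 (L 50) (L 48) (L 49) (N
4 7 (L 47) (D 5 (L 43) (L 3) (L 9) (D 6 (L 6) (L 5) (L 8) (N 8 19 (L 34) (L 1) (D 9 (N 10 18 (L 2)
(L 10) (N 11 13 (D 12 (L 17) (L 31) (L 42) (L 20)) (L 21) (N 14 17 (D 15 (L 23) (L 29) (L 41) (L
26)) (L 27) (L 28) (D 15 (L 26) (D 16 (L 40) (L 38) (L 39) (L 37)) (L 25) (L 23))) (D 12 (L 20) (N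
14 17 (D 15 (L 23) (L 29) (L 36) (L 26)) (L 27) (D 15 (L 24) (L 26) (L 23) (L 35)) (L 28)) (L 19) (L
17))) (L 11)) (L 13) (L 12) (L 15)) (D 9 (L 13) (L 4) (N 10 18 (L 10) (L 11) (L 2) (N 11 13 (L 21)
(D 12 (L 18) (L 17) (L 20) (L 19)) (D 12 (L 31) (L 20) (L 17) (N 14 17 (L 27) (D 15 (L 32) (L 23) (L
26) (L 25)) (L 28) (D 15 (L 26) (L 33) (L 30) (L 23)))) (D 12 (L 20) (L 22) (N 14 17 (L 27) (D 15 (L
24) (L 23) (L 26) (L 25)) (D 15 (L 29) (L 26) (L 23) (L 30)) (L 28)) (L 17)))) (L 12))))) (D 5 (D 6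
(N 8 19 (L 34) (D 9 (L 14) (L 12) (L 13) (L 46)) (L 1) (D 9 (L 13) (L 16) (L 45) (L 12))) (L 8) (L
5) (L 6)) (L 9) (L 3) (L 44)) (N 8 19 (L 34) (D 9 (L 14) (L 12) (L 13) (N 10 18 (L 11) (D 5 (L 9) (L
4) (D 6 (L 8) (L 6) (L 7) (L 5)) (L 3)) (L 10) (L 2))) (D 9 (N 10 18 (L 2) (L 10) (D 5 (L 9) (L 16)
(D 6 (L 8) (L 6) (N 11 13 (D 12 (L 17) (L 31) (N 14 17 (L 28) (L 27) (D 15 (L 30) (L 26) (L 23) (L
33)) (D 15 (L 26) (L 32) (L 25) (L 23))) (L 20)) (L 21) (D 12 (N 14 17 (D 15 (L 23) (L 29) (L 30) (L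
26)) (L 27) (L 28) (D 15 (L 26) (L 24) (L 25) (L 23))) (L 20) (L 17) (L 22)) (D 12 (L 20) (L 18) (L
19) (L 17))) (L 5)) (L 3)) (L 11)) (L 13) (L 12) (L 15)) (L 1)))) (N 3 20 (L 50) (L 49) (L 48) (N 4
7 (L 47) (D 5 (D 6 (N 8 19 (L 34) (L 1) (D 9 (L 14) (L 13) (L 12) (L 46)) (D 9 (L 13) (L 45) (L 16)
(L 12))) (L 5) (L 8) (L 6)) (L 3) (L 9) (L 44)) (D 5 (L 43) (L 9) (L 3) (D 6 (L 6) (L 8) (L 5) (N 8
19 (L 34) (D 9 (N 10 18 (L 2) (N 11 13 (D 12 (L 17) (L 42) (L 31) (L 20)) (N 14 17 (D 15 (L 23) (L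
41) (L 29) (L 26)) (L 28) (L 27) (D 15 (L 26) (L 25) (D 16 (L 40) (L 39) (L 38) (L 37)) (L 23))) (L
21) (D 12 (L 20) (L 19) (N 14 17 (D 15 (L 23) (L 36) (L 29) (L 26)) (D 15 (L 24) (L 23) (L 26) (L
35)) (L 27) (L 28)) (L 17))) (L 10) (L 11)) (L 12) (L 13) (L 15)) (L 1) (D 9 (L 13) (N 10 18 (L 10)
(L 2) (L 11) (N 11 13 (L 21) (D 12 (L 31) (L 17) (L 20) (N 14 17 (L 27) (L 28) (D 15 (L 32) (L 26)
(L 23) (L 25)) (D 15 (L 26) (L 30) (L 33) (L 23)))) (D 12 (L 18) (L 20) (L 17) (L 19)) (D 12 (L 20)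
(N 14 17 (L 27) (D 15 (L 29) (L 23) (L 26) (L 30)) (D 15 (L 24) (L 26) (L 23) (L 25)) (L 28)) (L 22)
(L 17)))) (L 4) (L 12))))) (N 8 19 (L 34) (D 9 (N 10 18 (L 2) (D 5 (L 9) (D 6 (L 8) (N 11 13 (D 12
(L 17) (N 14 17 (L 28) (D 15 (L 30) (L 23) (L 26) (L 33)) (L 27) (D 15 (L 26) (L 25) (L 32) (L 23)))
(L 31) (L 20)) (D 12 (N 14 17 (D 15 (L 23) (L 30) (L 29) (L 26)) (L 28) (L 27) (D 15 (L 26) (L 25)
(L 24) (L 23))) (L 17) (L 20) (L 22)) (L 21) (D 12 (L 20) (L 19) (L 18) (L 17))) (L 6) (L 5)) (L 16)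
(L 3)) (L 10) (L 11)) (L 12) (L 13) (L 15)) (D 9 (L 14) (L 13) (L 12) (N 10 18 (L 11) (L 10) (D 5 (L
9) (D 6 (L 8) (L 7) (L 6) (L 5)) (L 4) (L 3)) (L 2))) (L 1)))) (L 0)))

theorem check_tree : check [] tree = true := by
  decide +kernel

theorem not_designable : ¬ Designable 21 R0.toFinset := by
  rintro ⟨S, ⟨hstr, hS⟩, hmax⟩
  have hR : ∀ a ∈ R0, S a.2 = comp (S a.1) := fun a ha =>
    (pairs_iff _ _).1 (hS a (List.mem_toFinset.2 ha))
  obtain ⟨l, hl, hla⟩ := check_sound hR tree [] (by simp) check_tree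
  have h1 := List.all_eq_true.1 alts_ok l hl
  rw [Bool.and_eq_true, Bool.and_eq_true, Bool.and_eq_true] at h1
  obtain ⟨⟨⟨h2, h3⟩, h4⟩, h5⟩ := h1
  have hnd : l.Nodup := of_decide_eq_true h3
  have hlen : 7 ≤ l.length := of_decide_eq_true h4
  have hne : l.toFinset ≠ R0.toFinset := by
    intro heq
    rw [List.any_eq_true] at h5
    obtain ⟨a, ha, ha'⟩ := h5
    have h6 : a ∈ R0.toFinset := by
      rw [← heq]; exact List.mem_toFinset.2 ha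
    rw [List.mem_toFinset] at h6
    simp [h6] at ha'
  have hcard := hmax l.toFinset ⟨okList_sound h2, fun a ha =>
    (pairs_iff _ _).2 (hla a (List.mem_toFinset.1 ha))⟩ hne
  rw [List.toFinset_card_of_nodup hnd] at hcard
  have h7 : R0.toFinset.card ≤ 7 := List.toFinset_card_le R0
  omega

instance (R : Finset (ℕ × ℕ)) (a b : ℕ × ℕ) : Decidable (ArcChild R a b) := by
  unfold ArcChild; infer_instance

instance (n : ℕ) (R : Finset (ℕ × ℕ)) (a : ℕ × ℕ) (p : ℕ) : Decidable (DotChild n R a p) := by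
  unfold DotChild Unpaired; infer_instance

theorem binary_aux : ∀ a ∈ R0.toFinset,
    (R0.toFinset.filter fun b => ArcChild R0.toFinset a b).card +
      ((Finset.Icc 1 21).filter fun p => DotChild 21 R0.toFinset a p).card ≤ 2 := by
  decide +kernel

theorem binary : IsBinary 21 R0.toFinset := by
  intro a ha
  have h1 : {b | ArcChild R0.toFinset a b} =
      ((R0.toFinset.filter fun b => ArcChild R0.toFinset a b : Finset (ℕ × ℕ)) :
        Set (ℕ × ℕ)) := by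
    ext b
    rw [Finset.mem_coe, Finset.mem_filter]
    exact ⟨fun h => ⟨h.1, h⟩, fun h => h.2⟩
  have h2 : {p | DotChild 21 R0.toFinset a p} =
      (((Finset.Icc 1 21).filter fun p => DotChild 21 R0.toFinset a p : Finset ℕ) : Set ℕ) := by
    ext p
    rw [Finset.mem_coe, Finset.mem_filter, Finset.mem_Icc]
    exact ⟨fun h => ⟨⟨h.1.1, h.1.2.1⟩, h⟩, fun h => h.2⟩
  rw [h1, h2, Set.ncard_coe_finset, Set.ncard_coe_finset]
  exact binary_aux a ha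

/-- **The answer is negative.**  There is a secondary structure `R` on `1, …, n` (with `n = 21`)
that contains the arc `(1, n)`, whose tree is binary and unsaturated, and that is not
designable. -/
theorem result : ∃ (n : ℕ) (R : Finset (ℕ × ℕ)), IsStructure n R ∧ (1, n) ∈ R ∧ IsBinary n R ∧
    (∃ p, Unpaired n R p) ∧ ¬ Designable n R := by
  refine ⟨21, R0.toFinset, okList_sound (by decide +kernel), by decide, binary, ⟨2, ?_⟩,
    not_designable⟩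
  refine ⟨by norm_num, by norm_num, ?_⟩
  decide

end Pool.Agent.Results.MP_4bbd08_co.UndesignableBinary
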